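import Pool.Agent.Lib.MP_46876e_al_BC.BDefs

/-!
# MP_46876e_al, project BC, module BWord: words and paths
-/

set_option autoImplicit false

noncomputable section

namespace Pool.Agent.MP_46876e_al_BC

open MeasureTheory MulOpposite Filter Topology Pool.Agent.Forest46876e
open Pool.Agent.MP_46876e_al_PP
open scoped ENNReal

variable {G : Type*} [Group G]

theorem edgs_append (x : ℕ → G) (g : G) (v w : List (ℕ × Bool)) :
    edgs x g (v ++ w) = edgs x g v ++ edgs x (endp x g v) w := by
  induction v generalizing g with
  | nil => rfl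
  | cons a v ih =>
    change edg x g a :: edgs x (tgt x g a) (v ++ w) = edg x g a :: (edgs x (tgt x g a) v ++
      edgs x (endp x (tgt x g a) v) w)
    rw [ih]

theorem endp_append (x : ℕ → G) (g : G) (v w : List (ℕ × Bool)) :
    endp x g (v ++ w) = endp x (endp x g v) w := by
  induction v generalizing g with
  | nil => rfl
  | cons a v ih => exact ih (tgt x g a)

theorem edgs_mul (x : ℕ → G) (k g : G) (v : List (ℕ × Bool)) :
    edgs x (k * g) v = (edgs x g v).map fun e => (k * e.1, e.2) := by
  induction v generalizing g with
  | nil => rfl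
  | cons a v ih =>
    have h1 : edg x (k * g) a = (k * (edg x g a).1, (edg x g a).2) := by
      unfold edg
      split_ifs <;> simp [mul_assoc]
    have h2 : tgt x (k * g) a = k * tgt x g a := by
      unfold tgt
      split_ifs <;> rw [mul_assoc]
    change edg x (k * g) a :: edgs x (tgt x (k * g) a) v =
      (k * (edg x g a).1, (edg x g a).2) :: (edgs x (tgt x g a) v).map fun e => (k * e.1, e.2)
    rw [h1, h2, ih]

theorem edg_mul (x : ℕ → G) (k g : G) (a : ℕ × Bool) :
    edg x (k * g) a = (k * (edg x g a).1, (edg x g a).2) := by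
  unfold edg
  split_ifs <;> simp [mul_assoc]

/-- Proof: induction on `v`; `FreeGroup.lift_mk` (or `FreeGroup.lift.mk`). -/
theorem endp_eq (x : ℕ → G) (g : G) (v : List (ℕ × Bool)) :
    endp x g v = g * FreeGroup.lift x (FreeGroup.mk v) := by
  induction v generalizing g with
  | nil =>
    rw [FreeGroup.lift_mk]
    simp [endp]
  | cons a v ih =>
    change endp x (tgt x g a) v = _
    rw [ih, FreeGroup.lift_mk, FreeGroup.lift_mk, List.map_cons, List.prod_cons, ← mul_assoc]
    congr 1
    unfold tgt
    rcases a with ⟨i, b⟩
    cases b <;> simp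

/-- A word whose path has different edges is reduced: a letter followed by its inverse uses the same
edge twice. Proof: induction / `List.isChain_iff_getElem`; `FreeGroup.IsReduced` is
`List.IsChain (fun a b => a.1 = b.1 → a.2 = b.2)`. -/
theorem isReduced_of_nodup (x : ℕ → G) (g : G) (v : List (ℕ × Bool)) (h : (edgs x g v).Nodup) :
    FreeGroup.IsReduced v := by
  induction v generalizing g with
  | nil => exact FreeGroup.IsReduced.nil
  | cons a v ih =>
    cases v with
    | nil => exact FreeGroup.IsReduced.singleton
    | cons b v =>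
      change (edg x g a :: edg x (tgt x g a) b :: edgs x (tgt x (tgt x g a) b) v).Nodup at h
      rw [FreeGroup.isReduced_cons_cons]
      refine ⟨fun hab => ?_, ih (tgt x g a) (List.nodup_cons.1 h).2⟩
      by_contra hne
      apply (List.nodup_cons.1 h).1
      have heq : edg x g a = edg x (tgt x g a) b := by
        obtain ⟨i, ea⟩ := a
        obtain ⟨j, eb⟩ := b
        obtain rfl : i = j := hab
        cases ea <;> cases eb <;> simp_all [edg, tgt]
      rw [heq]
      exact List.mem_cons_self

/-- Proof: the words `x i` and `x i * (x j)⁻¹` have at most two letters, so they contain no cube of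
a nonempty word. -/
theorem cubeRel_ne_one {x : ℕ → G} (hx : CubeRel x) (i : ℕ) : x i ≠ 1 := by
  intro h
  obtain ⟨s, u, t, hu, hw⟩ := hx (FreeGroup.of i) (FreeGroup.of_ne_one i) (by
    rw [FreeGroup.lift_apply_of]
    exact h)
  have h1 : (FreeGroup.of i).toWord.length = 1 := by simp [FreeGroup.toWord_of]
  have h2 : 0 < u.length := List.length_pos_iff.2 hu
  rw [hw] at h1
  simp only [List.length_append] at h1
  omega

/-- As `cubeRel_ne_one`, with the word `x i * (x j)⁻¹`. -/
theorem cubeRel_injective {x : ℕ → G} (hx : CubeRel x) : Function.Injective x := by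
  intro i j hij
  by_contra hne
  have hw1 : FreeGroup.of i * (FreeGroup.of j)⁻¹ ≠ 1 := by
    intro h
    exact hne (FreeGroup.of_injective (mul_inv_eq_one.1 h))
  obtain ⟨s, u, t, hu, hw⟩ := hx _ hw1 (by
    rw [map_mul, map_inv, FreeGroup.lift_apply_of, FreeGroup.lift_apply_of, hij,
      mul_inv_cancel])
  have h1 : (FreeGroup.of i * (FreeGroup.of j)⁻¹).toWord.length ≤ 2 := by
    have h := FreeGroup.norm_mul_le (FreeGroup.of i) (FreeGroup.of j)⁻¹
    rw [FreeGroup.norm_inv_eq, FreeGroup.norm_of, FreeGroup.norm_of] at h
    exact h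
  have h2 : 0 < u.length := List.length_pos_iff.2 hu
  rw [hw] at h1
  simp only [List.length_append] at h1
  omega

end Pool.Agent.MP_46876e_al_BC
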