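import Pool.Agent.Lib.MP_46876e_al_BC.BDefs
import Pool.Agent.Lib.MP_46876e_al_BC.BWord

/-!
# MP_46876e_al, project BC, module BAcyc: the thinned graph has no cycles
-/

set_option autoImplicit false

noncomputable section

namespace Pool.Agent.MP_46876e_al_BC

open MeasureTheory MulOpposite Filter Topology Pool.Agent.Forest46876e
open Pool.Agent.MP_46876e_al_PP
open scoped ENNReal

variable {G : Type*} [Group G]

/-- Every walk in the thinned graph is the path of a word whose edges are open and not bad. Proof:
induction on the walk; a step `g → g'` of `confGraph (thin x ω)` is `g' = g * l` or `g = g' * l`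
with `thin x ω (_, l) = true`, so `l = x i`, and the letter is `(i, true)` or `(i, false)`. -/
theorem walk_word (x : ℕ → G) (ω : G × ℕ → Bool) {g h : G}
    (p : (confGraph (thin x ω)).Walk g h) :
    ∃ v : List (ℕ × Bool), endp x g v = h ∧
      (∀ e ∈ edgs x g v, ω e = true ∧ ¬ Bad x ω e) ∧
      (edgs x g v).map (fun e => s(e.1, e.1 * x e.2)) = p.edges := by
  induction p with
  | nil => exact ⟨[], rfl, by simp [edgs], by simp [edgs]⟩
  | @cons g g' h hadj p ih =>
    obtain ⟨v, h1, h2, h3⟩ := ih
    have hadj' := hadj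
    unfold confGraph at hadj'
    rw [SimpleGraph.fromRel_adj] at hadj'
    obtain ⟨-, ⟨l, hl, hg⟩ | ⟨l, hl, hg⟩⟩ := hadj'
    · obtain ⟨i, hi, ho, hb⟩ := (thin_eq_true x ω (g, l)).1 hl
      have hi' : l = x i := hi
      subst hi'
      refine ⟨(i, true) :: v, ?_, ?_, ?_⟩
      · change endp x (g * x i) v = h
        rw [← hg]
        exact h1
      · intro e he
        have he' : e ∈ (g, i) :: edgs x (g * x i) v := he
        rw [← hg] at he'
        rcases List.mem_cons.1 he' with he' | he'
        · rw [he']
          exact ⟨ho, hb⟩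
        · exact h2 e he'
      · rw [SimpleGraph.Walk.edges_cons, ← h3]
        change s(g, g * x i) :: (edgs x (g * x i) v).map (fun e => s(e.1, e.1 * x e.2)) = _
        rw [← hg]
    · obtain ⟨i, hi, ho, hb⟩ := (thin_eq_true x ω (g', l)).1 hl
      have hi' : l = x i := hi
      subst hi'
      have hg' : g * (x i)⁻¹ = g' := by rw [hg, mul_inv_cancel_right]
      refine ⟨(i, false) :: v, ?_, ?_, ?_⟩
      · change endp x (g * (x i)⁻¹) v = h
        rw [hg']
        exact h1
      · intro e he
        have he' : e ∈ (g * (x i)⁻¹, i) :: edgs x (g * (x i)⁻¹) v := he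
        rw [hg'] at he'
        rcases List.mem_cons.1 he' with he' | he'
        · rw [he']
          exact ⟨ho, hb⟩
        · exact h2 e he'
      · rw [SimpleGraph.Walk.edges_cons, ← h3]
        change s(g * (x i)⁻¹, g * (x i)⁻¹ * x i) ::
          (edgs x (g * (x i)⁻¹) v).map (fun e => s(e.1, e.1 * x e.2)) = _
        rw [hg', ← hg, Sym2.eq_swap]

/-- Proof: let `p` be a cycle at `g`, `v` its word (`walk_word`). `p.edges` has no duplicates
(`IsCycle`), so `edgs x g v` has none, `v` is reduced (`isReduced_of_nodup`), so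
`(FreeGroup.mk v).toWord = v` (`FreeGroup.IsReduced.reduce_eq`, `FreeGroup.toWord_mk`); `v ≠ []`
as `p` is not nil; `FreeGroup.lift x (FreeGroup.mk v) = 1` by `endp_eq`. By `hx`
`v = s ++ u ++ u ++ u ++ t`, `u = a :: u'`. With `h = endp x g s` the list
`edgs x h (cube a u')` is a piece of `edgs x g v` (`edgs_append`), so it has no duplicates and all
its edges are open; its first edge `edg x h a` is bad, but it is in `edgs x g v`. -/
theorem thin_acyclic {x : ℕ → G} (hx : CubeRel x) (ω : G × ℕ → Bool) :
    (confGraph (thin x ω)).IsAcyclic := by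
  intro g p hp
  obtain ⟨v, h1, h2, h3⟩ := walk_word x ω p
  have hnd : (edgs x g v).Nodup := by
    refine List.Nodup.of_map (fun e => s(e.1, e.1 * x e.2)) ?_
    rw [h3]
    exact hp.isCircuit.isTrail.edges_nodup
  have hred := isReduced_of_nodup x g v hnd
  have hv : v ≠ [] := by
    rintro rfl
    have h4 : p.edges = [] := by rw [← h3]; rfl
    have h5 : p.length = 0 := by rw [← SimpleGraph.Walk.length_edges, h4]; rfl
    have h6 := hp.three_le_length
    omega
  have hw : (FreeGroup.mk v).toWord = v := by
    rw [FreeGroup.toWord_mk]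
    exact hred.reduce_eq
  have hw1 : FreeGroup.mk v ≠ 1 := by
    intro h
    rw [h, FreeGroup.toWord_one] at hw
    exact hv hw.symm
  have hl : FreeGroup.lift x (FreeGroup.mk v) = 1 := by
    have h4 := endp_eq x g v
    rw [h1] at h4
    exact (mul_eq_left.1 h4.symm)
  obtain ⟨s, u, t, hu, hs⟩ := hx _ hw1 hl
  rw [hw] at hs
  obtain ⟨a, u', rfl⟩ := List.exists_cons_of_ne_nil hu
  have hs' : v = s ++ (cube a u' ++ t) := by
    rw [hs]
    simp [cube, List.append_assoc]
  have he : edgs x g v = edgs x g s ++ (edgs x (endp x g s) (cube a u') ++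
      edgs x (endp x (endp x g s) (cube a u')) t) := by
    rw [hs', edgs_append, edgs_append]
  have hsub : ∀ e ∈ edgs x (endp x g s) (cube a u'), e ∈ edgs x g v := by
    intro e hE
    rw [he]
    exact List.mem_append_right _ (List.mem_append_left _ hE)
  have hnd' : (edgs x (endp x g s) (cube a u')).Nodup := by
    rw [he] at hnd
    exact ((List.nodup_append.1 (List.nodup_append.1 hnd).2.1).1)
  have hmem : edg x (endp x g s) a ∈ edgs x (endp x g s) (cube a u') := List.mem_cons_self
  exact (h2 _ (hsub _ hmem)).2
    ⟨endp x g s, a, u', rfl, hnd', fun f hf => (h2 f (hsub f hf)).1⟩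

end Pool.Agent.MP_46876e_al_BC
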