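import Pool.Agent.Lib.MP_46876e_al_BC.BDefs
import Pool.Agent.Lib.MP_46876e_al_BC.BWord

/-!
# MP_46876e_al, project BC, module BMeas: measurability and equivariance
-/

set_option autoImplicit false

noncomputable section

namespace Pool.Agent.MP_46876e_al_BC

open MeasureTheory MulOpposite Filter Topology Pool.Agent.Forest46876e
open Pool.Agent.MP_46876e_al_PP
open scoped ENNReal

variable {G : Type*} [Group G]

omit [Group G] in
private theorem BMeas_forall (l : List (G × ℕ)) :
    MeasurableSet {ω : G × ℕ → Bool | ∀ f ∈ l, ω f = true} := by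
  have h : {ω : G × ℕ → Bool | ∀ f ∈ l, ω f = true} =
      ⋂ f ∈ {f | f ∈ l}, (fun ω : G × ℕ → Bool => ω f) ⁻¹' {true} := by
    ext ω
    simp
  rw [h]
  exact MeasurableSet.biInter (List.finite_toSet l).countable fun f _ =>
    measurable_pi_apply f (measurableSet_singleton _)

private theorem BMeas_bad [Countable G] (x : ℕ → G) (e : G × ℕ) :
    MeasurableSet {ω : G × ℕ → Bool | Bad x ω e} := by
  simp only [Bad, Set.setOf_exists]
  refine MeasurableSet.iUnion fun h => MeasurableSet.iUnion fun a =>
    MeasurableSet.iUnion fun u => ?_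
  exact (MeasurableSet.const _).inter ((MeasurableSet.const _).inter (BMeas_forall _))

private theorem BMeas_shift (x : ℕ → G) (k : G) (ω : G × ℕ → Bool) (e : G × ℕ) :
    Bad x (fun e => ω (k * e.1, e.2)) e ↔ Bad x ω (k * e.1, e.2) := by
  have hinj : Function.Injective fun e : G × ℕ => (k * e.1, e.2) := by
    rintro ⟨a, i⟩ ⟨b, j⟩ h
    simp only [Prod.mk.injEq, mul_right_inj] at h
    exact Prod.ext h.1 h.2
  have key : ∀ (h : G) (a : ℕ × Bool) (u : List (ℕ × Bool)),
      (edg x h a = e ∧ (edgs x h (cube a u)).Nodup ∧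
        ∀ f ∈ edgs x h (cube a u), ω (k * f.1, f.2) = true) ↔
      (edg x (k * h) a = (k * e.1, e.2) ∧ (edgs x (k * h) (cube a u)).Nodup ∧
        ∀ f ∈ edgs x (k * h) (cube a u), ω f = true) := by
    intro h a u
    rw [edgs_mul, edg_mul, List.nodup_map_iff hinj]
    refine and_congr ?_ (and_congr Iff.rfl ?_)
    · constructor
      · rintro rfl
        rfl
      · intro h1
        exact hinj h1
    · simp only [List.forall_mem_map]
  constructor
  · rintro ⟨h, a, u, hh⟩
    exact ⟨k * h, a, u, (key h a u).1 hh⟩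
  · rintro ⟨h, a, u, hh⟩
    refine ⟨k⁻¹ * h, a, u, (key (k⁻¹ * h) a u).2 ?_⟩
    rw [mul_inv_cancel_left]
    exact hh

/-- Proof: `Bad` is a countable union over `h`, `a`, `u` (`List (ℕ × Bool)` is countable) of finite
intersections of coordinate events; `thin` is a countable union over `i`. `Conf G` is
`G × G → Bool` (`measurable_pi_iff`); a map to `Bool` is measurable if the preimage of `true` is
(`measurable_to_bool`). -/
theorem measurable_thin [Countable G] (x : ℕ → G) :
    Measurable (thin x : (G × ℕ → Bool) → Conf G) := by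
  have h : Measurable (fun (ω : G × ℕ → Bool) (p : G × G) => thin x ω p) := by
    refine measurable_pi_iff.2 fun p => measurable_to_bool ?_
    have e : (fun ω : G × ℕ → Bool => thin x ω p) ⁻¹' {true} =
        ⋃ i : ℕ, ({ω : G × ℕ → Bool | p.2 = x i} ∩
          ({ω : G × ℕ → Bool | ω (p.1, i) = true} ∩ {ω | Bad x ω (p.1, i)}ᶜ)) := by
      ext ω
      simp only [Set.mem_preimage, Set.mem_singleton_iff, thin_eq_true, Set.mem_iUnion,
        Set.mem_inter_iff, Set.mem_setOf_eq, Set.mem_compl_iff]
    rw [e]
    refine MeasurableSet.iUnion fun i => (MeasurableSet.const _).inter (MeasurableSet.inter ?_ ?_)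
    · have h1 : Measurable fun ω : G × ℕ → Bool => ω (p.1, i) := measurable_pi_apply (p.1, i)
      exact h1 (measurableSet_singleton true)
    · exact (BMeas_bad x (p.1, i)).compl
  exact h

/-- Proof: `edg_mul`, `edgs_mul`: `Bad x (fun e => ω (k * e.1, e.2)) e ↔ Bad x ω (k * e.1, e.2)`
(replace `h` by `k * h`, resp. by `k⁻¹ * h`; `List.nodup_map_iff` with the injective map
`e ↦ (k * e.1, e.2)`); `conf_smul`. -/
theorem thin_smul (x : ℕ → G) (k : G) (ω : G × ℕ → Bool) :
    thin x (fun e => ω (k * e.1, e.2)) = op k • thin x ω := by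
  funext p
  rw [conf_smul, Bool.eq_iff_iff, thin_eq_true, thin_eq_true]
  simp only [BMeas_shift]

/-- Proof: `measurable_pi_iff`, `measurable_to_bool`, `measurableSet_lt`. -/
theorem measurable_thr : Measurable (thr : (G → KK) → G × ℕ → Bool) := by
  refine measurable_pi_iff.2 fun e => measurable_to_bool ?_
  have h : (fun k : G → KK => thr k e) ⁻¹' {true} = {k : G → KK | k e.1 e.2 < pp e.2} := by
    ext k
    simp [thr]
  rw [h]
  exact measurableSet_lt ((measurable_pi_apply e.2).comp (measurable_pi_apply e.1))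
    measurable_const

theorem thr_shift (k : G) (y : G → KK) :
    thr (fun h => y (k * h)) = fun e : G × ℕ => thr y (k * e.1, e.2) := by
  rfl

end Pool.Agent.MP_46876e_al_BC
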