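import Pool.Agent.Lib.MP_46876e_al_BC.BDefs

/-!
# MP_46876e_al, project BC, module BSum: sums over words
-/

set_option autoImplicit false

noncomputable section

namespace Pool.Agent.MP_46876e_al_BC

open MeasureTheory MulOpposite Filter Topology
open scoped ENNReal

private theorem BSum_cons {α : Type*} (g : List α → ℝ≥0∞) :
    ∑' l, g l = g [] + ∑' p : α × List α, g (p.1 :: p.2) := by
  classical
  rw [ENNReal.summable.tsum_eq_add_tsum_ite' []]
  congr 1
  have hinj : Function.Injective (fun p : α × List α => p.1 :: p.2) := by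
    rintro ⟨a, u⟩ ⟨b, v⟩ h
    simpa using h
  have h := hinj.tsum_eq (f := fun l : List α => if l = [] then 0 else g l) (by
    intro l hl
    rcases l with _ | ⟨a, u⟩
    · simp at hl
    · exact ⟨(a, u), rfl⟩)
  rw [← h]
  simp

private theorem BSum_len {α : Type*} (q : α → ℝ≥0∞) (hq : ∑' a, q a ≤ 1 / 4) (n : ℕ) :
    ∑' u : List α, (if u.length ≤ n then (u.map q).prod else 0) ≤ 4 / 3 := by
  induction n with
  | zero =>
    rw [BSum_cons]
    have h0 : ∑' p : α × List α, (if (p.1 :: p.2).length ≤ 0 then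
        ((p.1 :: p.2).map q).prod else 0) = (0 : ℝ≥0∞) := by
      simp
    rw [h0]
    simp only [List.length_nil, le_refl, if_true, List.map_nil, List.prod_nil, add_zero]
    rw [ENNReal.le_div_iff_mul_le (Or.inl (by norm_num)) (Or.inl (by norm_num))]
    norm_num
  | succ n ih =>
    rw [BSum_cons]
    have h1 : ∑' p : α × List α, (if (p.1 :: p.2).length ≤ n + 1 then
        ((p.1 :: p.2).map q).prod else 0) =
        (∑' a, q a) * ∑' u : List α, (if u.length ≤ n then (u.map q).prod else 0) := by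
      rw [ENNReal.tsum_prod', ← ENNReal.tsum_mul_right]
      refine tsum_congr fun a => ?_
      rw [← ENNReal.tsum_mul_left]
      refine tsum_congr fun u => ?_
      simp only [List.length_cons, add_le_add_iff_right, List.map_cons, List.prod_cons]
      split_ifs <;> simp
    rw [h1]
    have h2 : (∑' a, q a) * ∑' u : List α, (if u.length ≤ n then (u.map q).prod else 0) ≤
        1 / 4 * (4 / 3) := mul_le_mul' hq ih
    refine (add_le_add_right h2 _).trans ?_
    simp only [List.length_nil, Nat.zero_le, if_true, List.map_nil, List.prod_nil]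
    have h3 : (1 : ℝ≥0∞) / 4 * (4 / 3) = ENNReal.ofReal (1 / 4 * (4 / 3)) := by
      rw [ENNReal.ofReal_mul (by norm_num), ENNReal.ofReal_div_of_pos (by norm_num),
        ENNReal.ofReal_div_of_pos (by norm_num)]
      simp
    have h4 : (4 : ℝ≥0∞) / 3 = ENNReal.ofReal (4 / 3) := by
      rw [ENNReal.ofReal_div_of_pos (by norm_num)]
      simp
    rw [h3, h4, ← ENNReal.ofReal_one, ← ENNReal.ofReal_add (by norm_num) (by norm_num)]
    exact ENNReal.ofReal_le_ofReal (by norm_num)

/-- Proof: by induction on `n`, `∑' u : List α, if u.length ≤ n then (u.map q).prod else 0 ≤ 4/3`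
(split off the empty word and the first letter: `T (n+1) = 1 + (∑' a, q a) * T n`, with an
equivalence `List α ≃ Option (α × List α)`); a finite partial sum of the series is at most some
`T n` (`ENNReal.tsum_eq_iSup_sum`). -/
theorem tsum_words {α : Type*} (q : α → ℝ≥0∞) (hq : ∑' a, q a ≤ 1 / 4) :
    ∑' u : List α, (u.map q).prod ≤ 4 / 3 := by
  classical
  rw [ENNReal.tsum_eq_iSup_sum]
  refine iSup_le fun s => ?_
  refine le_trans ?_ (BSum_len q hq (s.sup List.length))
  have h1 : ∑ u ∈ s, (u.map q).prod =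
      ∑ u ∈ s, (if u.length ≤ s.sup List.length then (u.map q).prod else 0) := by
    refine Finset.sum_congr rfl fun u hu => ?_
    rw [if_pos (Finset.le_sup (f := List.length) hu)]
  rw [h1]
  exact ENNReal.sum_le_tsum s

theorem pp_pos (i : ℕ) : 0 < pp i := by
  unfold pp
  positivity

theorem pp_le (i : ℕ) : pp i ≤ 1 / 4 := by
  unfold pp
  have h : 1 ≤ Real.sqrt ((i : ℝ) + 1) := by
    rw [Real.one_le_sqrt]
    have : (0 : ℝ) ≤ i := Nat.cast_nonneg i
    linarith
  rw [div_le_div_iff₀ (by positivity) (by norm_num)]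
  linarith

private theorem BSum_step (a b : ℝ) (ha : 0 < a) (hb : 0 < b) (h : b ^ 2 = a ^ 2 + 1) :
    (1 / (4 * b)) ^ 3 ≤ (2 / a - 2 / b) / 64 := by
  have hab : a ≤ b := by nlinarith
  have h1 : (b - a) * (a + b) = 1 := by nlinarith
  have h2 : 2 / a - 2 / b = 2 / (a * b * (a + b)) := by
    field_simp
    linarith
  rw [h2]
  have h3 : (1 / (4 * b)) ^ 3 = 1 / b ^ 3 / 64 := by
    field_simp
    norm_num
  rw [h3]
  refine div_le_div_of_nonneg_right ?_ (by norm_num)
  rw [div_le_div_iff₀ (by positivity) (by positivity)]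
  have h4 : a * b * (a + b) ≤ b * b * (b + b) := by
    have : a * b ≤ b * b := mul_le_mul_of_nonneg_right hab hb.le
    exact mul_le_mul this (by linarith) (by positivity) (by positivity)
  nlinarith

private theorem BSum_partial (n : ℕ) :
    ∑ i ∈ Finset.range (n + 1), pp i ^ 3 ≤ (3 - 2 / Real.sqrt ((n : ℝ) + 1)) / 64 := by
  induction n with
  | zero =>
    simp [pp]
    norm_num
  | succ n ih =>
    rw [Finset.sum_range_succ]
    have h := BSum_step (Real.sqrt ((n : ℝ) + 1)) (Real.sqrt (((n + 1 : ℕ) : ℝ) + 1))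
      (by positivity) (by positivity) (by
        rw [Real.sq_sqrt (by positivity), Real.sq_sqrt (by positivity)]
        push_cast
        ring)
    have h2 : pp (n + 1) = 1 / (4 * Real.sqrt (((n + 1 : ℕ) : ℝ) + 1)) := rfl
    rw [h2]
    linarith

/-- Proof: `pp i ^ 3 = (1/64) * (i + 1) ^ (-3/2)`; for `i ≥ 1` compare with
`1 / sqrt i - 1 / sqrt (i+1) ≥ 1 / (2 (i+1)^(3/2))`: the partial sums of
`1 / (i+1)^(3/2)` are at most `1 + 2 - 2 / sqrt n ≤ 3` (induction), so the sum is at most
`3/64 ≤ 1/8`. -/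
theorem pp_cube_sum : ∑' i, ENNReal.ofReal (pp i) ^ 3 ≤ 1 / 8 := by
  refine ENNReal.tsum_le_of_sum_range_le fun n => ?_
  have h1 : ∑ i ∈ Finset.range n, ENNReal.ofReal (pp i) ^ 3 =
      ENNReal.ofReal (∑ i ∈ Finset.range n, pp i ^ 3) := by
    rw [ENNReal.ofReal_sum_of_nonneg fun i _ => pow_nonneg (pp_pos i).le 3]
    refine Finset.sum_congr rfl fun i _ => ?_
    rw [ENNReal.ofReal_pow (pp_pos i).le]
  have h2 : ∑ i ∈ Finset.range n, pp i ^ 3 ≤ 1 / 8 := by
    have h3 : ∑ i ∈ Finset.range n, pp i ^ 3 ≤ ∑ i ∈ Finset.range (n + 1), pp i ^ 3 := by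
      rw [Finset.sum_range_succ]
      have := pow_pos (pp_pos n) 3
      linarith
    have h4 := BSum_partial n
    have h5 : 0 ≤ 2 / Real.sqrt ((n : ℝ) + 1) := by positivity
    linarith
  rw [h1]
  have h6 : (1 : ℝ≥0∞) / 8 = ENNReal.ofReal (1 / 8) := by
    rw [ENNReal.ofReal_div_of_pos (by norm_num)]
    simp
  rw [h6]
  exact ENNReal.ofReal_le_ofReal h2

/-- Proof: `pp i ^ 2 = 1 / (16 (i+1))`, and the harmonic series diverges
(`Real.not_summable_one_div_natCast`, shift by one; `ENNReal.ofReal_tsum_of_nonneg` or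
`ENNReal.tsum_coe_ne_top_iff_summable`). -/
theorem pp_sq_sum : ∑' i, (ENNReal.ofReal (pp i) / 2) ^ 2 = ⊤ := by
  by_contra hne
  have h1 := ENNReal.summable_toReal hne
  have key : ∀ s t : ℝ, s ≠ 0 → s ^ 2 = t → (1 / (4 * s) / 2) ^ 2 = 1 / 64 * (1 / t) := by
    intro s t hs ht
    rw [← ht]
    field_simp
    norm_num
  have h2 : ∀ i : ℕ, ((ENNReal.ofReal (pp i) / 2) ^ 2).toReal =
      1 / 64 * (1 / ((i + 1 : ℕ) : ℝ)) := by
    intro i
    have h3 : (0 : ℝ) ≤ (i : ℝ) + 1 := by positivity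
    have h4 : Real.sqrt ((i : ℝ) + 1) ^ 2 = ((i + 1 : ℕ) : ℝ) := by
      rw [Real.sq_sqrt h3]
      push_cast
      rfl
    have h5 : Real.sqrt ((i : ℝ) + 1) ≠ 0 := by positivity
    rw [ENNReal.toReal_pow, ENNReal.toReal_div, ENNReal.toReal_ofReal (pp_pos i).le,
      ENNReal.toReal_ofNat]
    exact key _ _ h5 h4
  rw [funext h2, summable_mul_left_iff (by norm_num)] at h1
  exact Real.not_summable_one_div_natCast
    ((summable_nat_add_iff (f := fun n : ℕ => 1 / (n : ℝ)) 1).1 h1)

end Pool.Agent.MP_46876e_al_BC
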