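import Pool.Agent.Lib.MP_46876e_al_BC.BDefs
import Pool.Agent.Lib.MP_46876e_al_BC.BMeas
import Pool.Agent.Lib.MP_46876e_al_BC.BSum

/-!
# MP_46876e_al, project BC, module BBern: the Bernoulli shift
-/

set_option autoImplicit false

noncomputable section

namespace Pool.Agent.MP_46876e_al_BC

open MeasureTheory MulOpposite Filter Topology Pool.Agent.Forest46876e
open Pool.Agent.MP_46876e_al_PP
open scoped ENNReal

variable {G : Type*} [Group G]

instance unit_prob : IsProbabilityMeasure (volume.restrict (Set.Icc (0 : ℝ) 1)) :=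
  ⟨by simp⟩

instance kap_prob : IsProbabilityMeasure kap := by
  unfold kap
  infer_instance

/-- Proof: `{a} ⊆ {k | k 0 = a 0}`, `measurePreserving_eval_infinitePi`. -/
theorem kap_singleton (a : KK) : kap {a} = 0 := by
  have h1 := measurePreserving_eval_infinitePi
    (fun _ : ℕ => (volume.restrict (Set.Icc (0 : ℝ) 1))) 0
  have h2 : kap ((fun k : KK => k 0) ⁻¹' {a 0}) = 0 := by
    have h3 := h1.measure_preimage (measurableSet_singleton (a 0)).nullMeasurableSet
    have h4 : (volume.restrict (Set.Icc (0 : ℝ) 1)) {a 0} = 0 := by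
      rw [Measure.restrict_apply (measurableSet_singleton _)]
      exact measure_mono_null Set.inter_subset_left (by simp)
    rw [h4] at h3
    exact h3
  refine measure_mono_null ?_ h2
  rintro k rfl
  rfl

private theorem unit_Iio (i : ℕ) :
    (volume.restrict (Set.Icc (0 : ℝ) 1)) (Set.Iio (pp i)) = ENNReal.ofReal (pp i) := by
  rw [Measure.restrict_apply measurableSet_Iio]
  have h1 := pp_pos i
  have h2 := pp_le i
  have h3 : Set.Iio (pp i) ∩ Set.Icc (0 : ℝ) 1 = Set.Ico 0 (pp i) := by
    ext y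
    simp only [Set.mem_inter_iff, Set.mem_Iio, Set.mem_Icc, Set.mem_Ico]
    constructor
    · rintro ⟨h4, h5, -⟩
      exact ⟨h5, h4⟩
    · rintro ⟨h4, h5⟩
      exact ⟨h5, h4, by linarith⟩
  rw [h3, Real.volume_Ico, sub_zero]

/-- Proof: the law of `thr` under `infinitePi kap`: `{k | ∀ e ∈ L, thr k e = true}` is
`{k | ∀ e ∈ L, k e.1 e.2 < pp e.2}`. By `infinitePi_map_curry` (or its inverse) the measure on
`G → ℕ → ℝ` is the image of the product measure on `G × ℕ → ℝ`; there use `infinitePi_pi` with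
`s = L.toFinset`, `t e = Iio (pp e.2)`, each of measure `ENNReal.ofReal (pp e.2)`
(`0 < pp ≤ 1/4`). -/
theorem bern_law (L : List (G × ℕ)) (hL : L.Nodup) :
    ((Measure.infinitePi fun _ : G => kap).map thr) {ω : G × ℕ → Bool | ∀ e ∈ L, ω e = true} =
      (L.map fun e => ENNReal.ofReal (pp e.2)).prod := by
  classical
  have hm : MeasurableSet {ω : G × ℕ → Bool | ∀ e ∈ L, ω e = true} := by
    have h1 : {ω : G × ℕ → Bool | ∀ e ∈ L, ω e = true} =
        Set.pi (↑L.toFinset : Set (G × ℕ)) fun _ => {true} := by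
      ext ω
      simp [Set.mem_pi]
    rw [h1]
    exact MeasurableSet.pi (Finset.countable_toSet _) fun _ _ => measurableSet_singleton _
  rw [Measure.map_apply measurable_thr hm]
  have h2 := Measure.infinitePi_map_curry_symm
    (fun (_ : G) (_ : ℕ) => (volume.restrict (Set.Icc (0 : ℝ) 1)))
  have h3 : MeasurableSet (Set.pi (↑L.toFinset : Set (G × ℕ)) fun e => Set.Iio (pp e.2)) :=
    MeasurableSet.pi (Finset.countable_toSet _) fun _ _ => measurableSet_Iio
  have h4 := Measure.infinitePi_pi (fun _ : G × ℕ => (volume.restrict (Set.Icc (0 : ℝ) 1)))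
    (s := L.toFinset) (t := fun e => Set.Iio (pp e.2)) fun _ _ => measurableSet_Iio
  rw [← h2, Measure.map_apply (MeasurableEquiv.measurable _) h3] at h4
  have h5 : thr ⁻¹' {ω : G × ℕ → Bool | ∀ e ∈ L, ω e = true} =
      (MeasurableEquiv.curry G ℕ ℝ).symm ⁻¹'
        (Set.pi (↑L.toFinset : Set (G × ℕ)) fun e => Set.Iio (pp e.2)) := by
    ext k
    simp only [Set.mem_preimage, Set.mem_ofPred_eq, thr, decide_eq_true_eq, Set.mem_pi,
      Finset.mem_coe, List.mem_toFinset, Set.mem_Iio]
    rfl
  rw [h5]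
  refine h4.trans ?_
  rw [← List.prod_toFinset _ hL]
  exact Finset.prod_congr rfl fun e _ => unit_Iio e.2

end Pool.Agent.MP_46876e_al_BC
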