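import Pool.Agent.Lib.MP_46876e_al_PP.TFac

/-!
# MP_46876e_al, project BC (relations with cubes): definitions

Paper text: /team-store/MP_46876e_BC_text.md. The group `G` acts on the right; `Conf G`,
`confGraph` and `factor_forest` come from project PP.
-/

set_option autoImplicit false

noncomputable section

namespace Pool.Agent.MP_46876e_al_BC

open MeasureTheory MulOpposite Filter Topology Pool.Agent.Forest46876e
open Pool.Agent.MP_46876e_al_PP
open scoped ENNReal

variable {G : Type*} [Group G]

/-- Every nonempty reduced word in the `x i` and their inverses which is `1` in the group contains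
a cube `u ++ u ++ u`, `u ≠ []`. -/
def CubeRel (x : ℕ → G) : Prop :=
  ∀ w : FreeGroup ℕ, w ≠ 1 → FreeGroup.lift x w = 1 →
    ∃ s u t : List (ℕ × Bool), u ≠ [] ∧ w.toWord = s ++ u ++ u ++ u ++ t

/-- The end of the step with the letter `a` from `g`. -/
def tgt (x : ℕ → G) (g : G) (a : ℕ × Bool) : G := if a.2 then g * x a.1 else g * (x a.1)⁻¹

/-- The edge used by the letter `a` from `g`; `(h, i)` stands for the edge from `h` to `h * x i`. -/
def edg (x : ℕ → G) (g : G) (a : ℕ × Bool) : G × ℕ :=
  if a.2 then (g, a.1) else (g * (x a.1)⁻¹, a.1)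

/-- The list of the edges of the path from `g` with the given word. -/
def edgs (x : ℕ → G) : G → List (ℕ × Bool) → List (G × ℕ)
  | _, [] => []
  | g, a :: v => edg x g a :: edgs x (tgt x g a) v

/-- The end of the path from `g` with the given word. -/
def endp (x : ℕ → G) : G → List (ℕ × Bool) → G
  | g, [] => g
  | g, a :: v => endp x (tgt x g a) v

/-- The cube of the word `a :: u`. -/
def cube (a : ℕ × Bool) (u : List (ℕ × Bool)) : List (ℕ × Bool) :=
  (a :: u) ++ (a :: u) ++ (a :: u)

/-- The edge `e` is the first edge of an open path with a cube as its word, all of whose edges are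
different. -/
def Bad (x : ℕ → G) (ω : G × ℕ → Bool) (e : G × ℕ) : Prop :=
  ∃ (h : G) (a : ℕ × Bool) (u : List (ℕ × Bool)), edg x h a = e ∧
    (edgs x h (cube a u)).Nodup ∧ ∀ f ∈ edgs x h (cube a u), ω f = true

open scoped Classical in
/-- The open edges that are not bad, as a configuration. -/
def thin (x : ℕ → G) (ω : G × ℕ → Bool) : Conf G := fun p =>
  decide (∃ i, p.2 = x i ∧ ω (p.1, i) = true ∧ ¬ Bad x ω (p.1, i))

theorem thin_eq_true (x : ℕ → G) (ω : G × ℕ → Bool) (p : G × G) :
    thin x ω p = true ↔ ∃ i, p.2 = x i ∧ ω (p.1, i) = true ∧ ¬ Bad x ω (p.1, i) := by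
  simp [thin]

/-- The densities. -/
def pp (i : ℕ) : ℝ := 1 / (4 * Real.sqrt (i + 1))

/-- The base space: sequences of real numbers. -/
abbrev KK : Type := ℕ → ℝ

/-- Independent uniformly distributed elements of `[0, 1]`. -/
def kap : Measure KK := Measure.infinitePi fun _ : ℕ => (volume.restrict (Set.Icc (0 : ℝ) 1))

/-- The edge `(g, i)` is open if `k g i < pp i`. -/
def thr (k : G → KK) : G × ℕ → Bool := fun e => decide (k e.1 e.2 < pp e.2)

end Pool.Agent.MP_46876e_al_BC
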