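import Pool.Agent.Lib.MP_46876e_al_BC.BDefs
import Pool.Agent.Lib.MP_46876e_al_BC.BWord
import Pool.Agent.Lib.MP_46876e_al_BC.BMeas
import Pool.Agent.Lib.MP_46876e_al_BC.BSum

/-!
# MP_46876e_al, project BC, module BMass: the masses of the thinned percolation
-/

set_option autoImplicit false

noncomputable section

namespace Pool.Agent.MP_46876e_al_BC

open MeasureTheory MulOpposite Filter Topology Pool.Agent.Forest46876e
open Pool.Agent.MP_46876e_al_PP
open scoped ENNReal

variable {G : Type*} [Group G]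

/-- The probability that all edges of a path with different edges are open. Proof: induction on the
word: `(edgs x h v).map (fun e => p e.2) = v.map (fun a => p a.1)`. -/
theorem edgs_map_snd (x : ℕ → G) (h : G) (v : List (ℕ × Bool)) (p : ℕ → ℝ≥0∞) :
    (edgs x h v).map (fun e => p e.2) = v.map fun a => p a.1 := by
  induction v generalizing h with
  | nil => simp [edgs]
  | cons a v ih =>
    have h1 : (edg x h a).2 = a.1 := by
      unfold edg
      split <;> rfl
    simp [edgs, ih, h1]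

/-- The start of the path whose first edge, for the letter `(i, b)`, is `(1, i)`. -/
private def st (x : ℕ → G) (i : ℕ) (b : Bool) : G := if b then 1 else x i

private def evt (x : ℕ → G) (i : ℕ) (b : Bool) (u : List (ℕ × Bool)) : Set (G × ℕ → Bool) :=
  {ω | (edgs x (st x i b) (cube (i, b) u)).Nodup ∧
    ∀ f ∈ edgs x (st x i b) (cube (i, b) u), ω f = true}

private theorem prod_cube (p : ℕ → ℝ≥0∞) (u : List (ℕ × Bool)) :
    (u.map fun a => p a.1 ^ 3).prod = (u.map fun a => p a.1).prod ^ 3 := by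
  induction u with
  | nil => simp
  | cons a u ih => rw [List.map_cons, List.prod_cons, ih, List.map_cons, List.prod_cons, mul_pow]

private theorem evt_mass (x : ℕ → G) (P : Measure (G × ℕ → Bool)) (p : ℕ → ℝ≥0∞)
    (hP : ∀ L : List (G × ℕ), L.Nodup → P {ω | ∀ e ∈ L, ω e = true} = (L.map fun e => p e.2).prod)
    (i : ℕ) (b : Bool) (u : List (ℕ × Bool)) :
    P (evt x i b u) ≤ p i ^ 3 * (u.map fun a => p a.1 ^ 3).prod := by
  by_cases hn : (edgs x (st x i b) (cube (i, b) u)).Nodup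
  · have h1 : evt x i b u =
        {ω : G × ℕ → Bool | ∀ e ∈ edgs x (st x i b) (cube (i, b) u), ω e = true} := by
      ext ω
      simp [evt, hn]
    rw [h1, hP _ hn, edgs_map_snd]
    rw [prod_cube]
    simp only [cube, List.cons_append, List.map_cons, List.map_append, List.prod_cons,
      List.prod_append]
    apply le_of_eq
    ring
  · have h1 : evt x i b u = ∅ := by
      ext ω
      simp [evt, hn]
    rw [h1, measure_empty]
    exact zero_le

/-- Proof: if `ω (1, i)` and `(1, i)` is bad, then for some word `a :: u` with `a.1 = i` and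
`h = 1` (`a.2 = true`) or `h = x i` (`a.2 = false`) all edges of the cube at `h` are different and
open. Union bound over `a ∈ {(i, true), (i, false)}` and `u`; each event has probability
`(p i * ∏ p) ^ 3` by `hP` and `edgs_map_snd`. The sum over `u` is at most `4/3` by `tsum_words` with
`q a = p a.1 ^ 3`, `∑' a : ℕ × Bool, q a = 2 ∑' i, p i ^ 3 ≤ 1/4`. -/
theorem bad_mass [Countable G] (x : ℕ → G) (P : Measure (G × ℕ → Bool)) (p : ℕ → ℝ≥0∞)
    (hp : ∑' i, p i ^ 3 ≤ 1 / 8)
    (hP : ∀ L : List (G × ℕ), L.Nodup → P {ω | ∀ e ∈ L, ω e = true} = (L.map fun e => p e.2).prod)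
    (i : ℕ) : P {ω | Bad x ω (1, i)} ≤ 8 / 3 * p i ^ 3 := by
  have hsub : {ω : G × ℕ → Bool | Bad x ω (1, i)} ⊆
      ⋃ b : Bool, ⋃ u : List (ℕ × Bool), evt x i b u := by
    rintro ω ⟨h, a, u, he, hn, hω⟩
    obtain ⟨j, b⟩ := a
    have hj : j = i := by
      have h2 := congrArg Prod.snd he
      unfold edg at h2
      split at h2 <;> simpa using h2
    subst hj
    have hh : h = st x j b := by
      have h2 := congrArg Prod.fst he
      cases b
      · simp only [edg, Bool.false_eq_true, if_false] at h2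
        simpa [st] using mul_inv_eq_one.1 h2
      · simpa [edg, st] using h2
    subst hh
    exact Set.mem_iUnion.2 ⟨b, Set.mem_iUnion.2 ⟨u, hn, hω⟩⟩
  have hq : ∑' a : ℕ × Bool, p a.1 ^ 3 ≤ 1 / 4 := by
    have h1 : ∑' a : ℕ × Bool, p a.1 ^ 3 = 2 * ∑' j, p j ^ 3 := by
      rw [ENNReal.tsum_prod (f := fun (j : ℕ) (_ : Bool) => p j ^ 3), ← ENNReal.tsum_mul_left]
      refine tsum_congr fun j => ?_
      rw [tsum_bool, two_mul]
    rw [h1]
    calc 2 * ∑' j, p j ^ 3 ≤ 2 * (1 / 8) := by gcongr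
      _ = 1 / 4 := by
        rw [one_div, one_div, show (8 : ℝ≥0∞) = 2 * 4 by norm_num,
          ENNReal.mul_inv (by simp) (by simp), ← mul_assoc,
          ENNReal.mul_inv_cancel (by simp) (by simp), one_mul]
  have hw := tsum_words (fun a : ℕ × Bool => p a.1 ^ 3) hq
  calc P {ω | Bad x ω (1, i)} ≤ P (⋃ b : Bool, ⋃ u : List (ℕ × Bool), evt x i b u) :=
        measure_mono hsub
    _ ≤ ∑' b : Bool, P (⋃ u : List (ℕ × Bool), evt x i b u) := measure_iUnion_le _
    _ ≤ ∑' b : Bool, p i ^ 3 * (4 / 3) := by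
        refine ENNReal.tsum_le_tsum fun b => ?_
        calc P (⋃ u : List (ℕ × Bool), evt x i b u)
            ≤ ∑' u : List (ℕ × Bool), P (evt x i b u) := measure_iUnion_le _
          _ ≤ ∑' u : List (ℕ × Bool), p i ^ 3 * (u.map fun a => p a.1 ^ 3).prod :=
              ENNReal.tsum_le_tsum fun u => evt_mass x P p hP i b u
          _ = p i ^ 3 * ∑' u : List (ℕ × Bool), (u.map fun a => p a.1 ^ 3).prod :=
              ENNReal.tsum_mul_left
          _ ≤ p i ^ 3 * (4 / 3) := by gcongr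
    _ = 8 / 3 * p i ^ 3 := by
        rw [tsum_bool, ← two_mul, mul_comm (p i ^ 3), ← mul_assoc]
        congr 1
        rw [div_eq_mul_inv, div_eq_mul_inv, ← mul_assoc]
        norm_num

/-- Proof: `{ω (1, i) = true} ⊆ {thin x ω (1, x i) = true} ∪ {Bad x ω (1, i)}`; `P (ω (1,i)) = p i`
by `hP`; `8/3 * p i ^ 3 ≤ p i / 2` as `p i ≤ 1/4`. -/
theorem thin_mass [Countable G] (x : ℕ → G) (P : Measure (G × ℕ → Bool)) (p : ℕ → ℝ≥0∞)
    (hp : ∑' i, p i ^ 3 ≤ 1 / 8) (hp4 : ∀ i, p i ≤ 1 / 4)
    (hP : ∀ L : List (G × ℕ), L.Nodup → P {ω | ∀ e ∈ L, ω e = true} = (L.map fun e => p e.2).prod)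
    (i : ℕ) : p i / 2 ≤ P {ω | thin x ω (1, x i) = true} := by
  have h1 : P {ω | ω (1, i) = true} = p i := by
    have := hP [((1 : G), i)] (by simp)
    simpa using this
  have hsub : {ω : G × ℕ → Bool | ω (1, i) = true} ⊆
      {ω | thin x ω (1, x i) = true} ∪ {ω | Bad x ω (1, i)} := by
    intro ω hω
    by_cases hb : Bad x ω (1, i)
    · exact Or.inr hb
    · exact Or.inl ((thin_eq_true x ω (1, x i)).2 ⟨i, rfl, hω, hb⟩)
  have hpt : p i ≠ ⊤ := ne_top_of_le_ne_top (by simp) (hp4 i)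
  have h2 : 8 / 3 * p i ^ 3 ≤ p i / 2 := by
    have h3 : p i ^ 3 = p i * (p i * p i) := by ring
    have h4 : p i * p i ≤ 1 / 4 * (1 / 4) := mul_le_mul' (hp4 i) (hp4 i)
    have h5 : (8 : ℝ≥0∞) / 3 * (1 / 4 * (1 / 4)) ≤ 1 / 2 := by
      have h6 : (8 : ℝ≥0∞) / 3 * (1 / 4 * (1 / 4)) =
          ENNReal.ofReal (8 / 3 * (1 / 4 * (1 / 4))) := by
        rw [ENNReal.ofReal_mul (by norm_num), ENNReal.ofReal_mul (by norm_num),
          ENNReal.ofReal_div_of_pos (by norm_num), ENNReal.ofReal_div_of_pos (by norm_num)]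
        norm_num
      have h7 : (1 : ℝ≥0∞) / 2 = ENNReal.ofReal (1 / 2) := by
        rw [ENNReal.ofReal_div_of_pos (by norm_num)]
        norm_num
      rw [h6, h7]
      exact ENNReal.ofReal_le_ofReal (by norm_num)
    calc 8 / 3 * p i ^ 3 = p i * (8 / 3 * (p i * p i)) := by rw [h3]; ring
      _ ≤ p i * (8 / 3 * (1 / 4 * (1 / 4))) := by gcongr
      _ ≤ p i * (1 / 2) := by gcongr
      _ = p i / 2 := by rw [mul_one_div]
  have h3 : p i ≤ P {ω | thin x ω (1, x i) = true} + p i / 2 := by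
    calc p i = P {ω | ω (1, i) = true} := h1.symm
      _ ≤ P ({ω | thin x ω (1, x i) = true} ∪ {ω | Bad x ω (1, i)}) := measure_mono hsub
      _ ≤ P {ω | thin x ω (1, x i) = true} + P {ω | Bad x ω (1, i)} := measure_union_le _ _
      _ ≤ P {ω | thin x ω (1, x i) = true} + p i / 2 := by
          gcongr
          exact (bad_mass x P p hp hP i).trans h2
  have h4 : p i / 2 ≠ ⊤ := ENNReal.div_ne_top hpt (by simp)
  have h5 : p i / 2 + p i / 2 ≤ P {ω | thin x ω (1, x i) = true} + p i / 2 := by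
    rw [ENNReal.add_halves]
    exact h3
  exact (ENNReal.add_le_add_iff_right h4).1 h5

end Pool.Agent.MP_46876e_al_BC
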