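import Pool.Agent.Lib.MP_46876e_al_BC.BDefs
import Pool.Agent.Lib.MP_46876e_al_BC.BWord
import Pool.Agent.Lib.MP_46876e_al_BC.BAcyc
import Pool.Agent.Lib.MP_46876e_al_BC.BMeas
import Pool.Agent.Lib.MP_46876e_al_BC.BSum
import Pool.Agent.Lib.MP_46876e_al_BC.BMass
import Pool.Agent.Lib.MP_46876e_al_BC.BBern

/-!
# MP_46876e_al, project BC, module BFin: relations with cubes
-/

set_option autoImplicit false

noncomputable section

namespace Pool.Agent.MP_46876e_al_BC

open MeasureTheory MulOpposite Filter Topology Pool.Agent.Forest46876e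
open Pool.Agent.MP_46876e_al_PP
open scoped ENNReal

/-- Proof: `P = (infinitePi kap).map thr`, `τ = P.map (thin x)`; `π' = thin x ∘ thr ∘ π`.
`factor_forest τ` (acyclic: `thin_acyclic`, `ae_map_iff`; equivariant a.e.: `thr_shift`,
`thin_smul`) gives `A = facFam π'` with `τ {η | η (1, g) = true} ≤ μ (A g)` for `g ≠ 1`.
`∑ g, μ (A g) ^ 2 ≥ ∑ i, μ (A (x i)) ^ 2 ≥ ∑ i, (pp i / 2) ^ 2 = ∞` as `x` is injective
(`cubeRel_injective`, `ENNReal.tsum_comp_le_tsum_of_injective`), `x i ≠ 1`. -/
theorem cube_forest (G : Type) [Group G] [Countable G] (x : ℕ → G) (hx : CubeRel x) (X : Type)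
    [MeasurableSpace X] [StandardBorelSpace X] [MulAction Gᵐᵒᵖ X] (μ : Measure X)
    [IsProbabilityMeasure μ] (π : X → G → KK)
    (hmp : ∀ g : G, MeasurePreserving (fun x : X => op g • x) μ μ)
    (hfree : ∀ᵐ x ∂μ, ∀ g : G, g ≠ 1 → op g • x ≠ x)
    (hπ : MeasurePreserving π μ (Measure.infinitePi fun _ : G => kap))
    (heq : ∀ g : G, ∀ᵐ x ∂μ, ∀ h, π (op g • x) h = π x (g * h)) :
    ∃ A : G → Set X, IsForestFamily A ∧ ∑' g, μ (A g) ^ 2 = ⊤ := by
  classical
  have hthr : Measurable (thr : (G → KK) → G × ℕ → Bool) := measurable_thr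
  have hthin : Measurable (thin x : (G × ℕ → Bool) → Conf G) := measurable_thin x
  have hf : Measurable fun y : G → KK => thin x (thr y) := hthin.comp hthr
  set Pk : Measure (G → KK) := Measure.infinitePi fun _ : G => kap with hPk
  set P : Measure (G × ℕ → Bool) := Pk.map thr with hPdef
  have hτ : Pk.map (fun y : G → KK => thin x (thr y)) = P.map (thin x) := by
    rw [hPdef, Measure.map_map hthin hthr]
    rfl
  have hac : ∀ᵐ η ∂(P.map (thin x)), (confGraph η).IsAcyclic := by
    rw [ae_map_iff hthin.aemeasurable measurableSet_acyclic]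
    exact ae_of_all _ fun ω => thin_acyclic hx ω
  have hπ' : MeasurePreserving (fun z : X => thin x (thr (π z))) μ (P.map (thin x)) := by
    have h1 : MeasurePreserving (fun y : G → KK => thin x (thr y)) Pk (P.map (thin x)) :=
      ⟨hf, hτ⟩
    exact h1.comp hπ
  have heq' : ∀ g : G, ∀ᵐ z ∂μ, thin x (thr (π (op g • z))) = op g • thin x (thr (π z)) := by
    intro g
    filter_upwards [heq g] with z hz
    have h1 : π (op g • z) = fun h => π z (g * h) := funext hz
    rw [h1, thr_shift, thin_smul]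
  obtain ⟨hA, hAm⟩ := factor_forest (P.map (thin x)) hac μ hmp hfree
    (fun z : X => thin x (thr (π z))) hπ' heq'
  refine ⟨facFam fun z : X => thin x (thr (π z)), hA, ?_⟩
  have hmass : ∀ i : ℕ, ENNReal.ofReal (pp i) / 2 ≤
      μ (facFam (fun z : X => thin x (thr (π z))) (x i)) := by
    intro i
    have h4 : ∀ i, ENNReal.ofReal (pp i) ≤ 1 / 4 := by
      intro i
      refine (ENNReal.ofReal_le_ofReal (pp_le i)).trans (le_of_eq ?_)
      rw [ENNReal.ofReal_div_of_pos (by norm_num)]
      norm_num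
    have h1 := thin_mass x P (fun i => ENNReal.ofReal (pp i)) pp_cube_sum h4
      (fun L hL => bern_law L hL) i
    refine h1.trans ((le_of_eq ?_).trans (hAm (x i) (cubeRel_ne_one hx i)))
    have hms : MeasurableSet {η : Conf G | η (1, x i) = true} := by
      have hlab : Measurable fun η : Conf G => η (1, x i) :=
        measurable_pi_apply (X := fun _ : G × G => Bool) (1, x i)
      exact hlab (measurableSet_singleton true)
    rw [Measure.map_apply hthin hms]
    rfl
  rw [← top_le_iff, ← pp_sq_sum]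
  calc ∑' i, (ENNReal.ofReal (pp i) / 2) ^ 2
      ≤ ∑' i, μ (facFam (fun z : X => thin x (thr (π z))) (x i)) ^ 2 :=
        ENNReal.tsum_le_tsum fun i => pow_le_pow_left₀ zero_le (hmass i) 2
    _ ≤ ∑' g, μ (facFam (fun z : X => thin x (thr (π z))) g) ^ 2 :=
        ENNReal.tsum_comp_le_tsum_of_injective (cubeRel_injective hx)
          fun g => μ (facFam (fun z : X => thin x (thr (π z))) g) ^ 2

end Pool.Agent.MP_46876e_al_BC
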